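import Mathlib
import Pool.Agent.V11298.LimitOrbit

/-!
If `x_{n+1} = (∑ β_i x_{n-i}) / (A + ∑ B_i x_{n-i})` with `A = ∑ β_i` has no solution of prime
period at least two, then its zero equilibrium is globally asymptotically stable.
-/

namespace Pool.Agent.Results.MP_2e7467_an.ZeroStable

open Filter Topology Finset

/-- `x` is a solution; the index is shifted by `k`, so that `x 0, …, x k` are the initial
values. -/
def IsSol (k : ℕ) (A : ℝ) (β B : ℕ → ℝ) (x : ℕ → ℝ) : Prop :=
  (∀ n, 0 ≤ x n) ∧ ∀ n, x (n + k + 1) =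
    (∑ i ∈ range (k + 1), β i * x (n + k - i)) / (A + ∑ i ∈ range (k + 1), B i * x (n + k - i))

/-- `p` is the least positive period of `x`. -/
def PrimePeriod (x : ℕ → ℝ) (p : ℕ) : Prop :=
  1 ≤ p ∧ (∀ n, x (n + p) = x n) ∧ ∀ q, 1 ≤ q → (∀ n, x (n + q) = x n) → p ≤ q

/-- The zero equilibrium is globally asymptotically stable. -/
def GAS (k : ℕ) (A : ℝ) (β B : ℕ → ℝ) : Prop :=
  (∀ ε > 0, ∃ δ > 0, ∀ x, IsSol k A β B x → (∀ j ≤ k, x j < δ) → ∀ n, x n < ε) ∧
    ∀ x, IsSol k A β B x → Tendsto x atTop (𝓝 0)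

/-- The set of delays `i + 1` with `β i > 0`. -/
def delays (k : ℕ) (β : ℕ → ℝ) : Set ℕ := {j | ∃ i ≤ k, 0 < β i ∧ j = i + 1}

variable {k : ℕ} {A : ℝ} {β B : ℕ → ℝ}

lemma den_pos (hA : 0 < A) (hB : ∀ i ≤ k, 0 ≤ B i) {x : ℕ → ℝ} (hx : ∀ n, 0 ≤ x n)
    (f : ℕ → ℕ) : 0 < A + ∑ i ∈ range (k + 1), B i * x (f i) := by
  have : 0 ≤ ∑ i ∈ range (k + 1), B i * x (f i) :=
    sum_nonneg fun i hi => mul_nonneg (hB i (by have := mem_range.1 hi; omega)) (hx _)
  linarith

lemma sol_bound (hA : 0 < A) (hβ : ∀ i ≤ k, 0 ≤ β i) (hB : ∀ i ≤ k, 0 ≤ B i)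
    (hsum : A = ∑ i ∈ range (k + 1), β i) {x : ℕ → ℝ} (hx : IsSol k A β B x) {c : ℝ}
    (hc : ∀ j ≤ k, x j ≤ c) : ∀ n, x n ≤ c := by
  intro n
  induction n using Nat.strong_induction_on with
  | _ n ih =>
    rcases le_or_gt n k with hn | hn
    · exact hc n hn
    · obtain ⟨m, rfl⟩ : ∃ m, n = m + k + 1 := ⟨n - (k + 1), by omega⟩
      have hc0 : 0 ≤ c := (hx.1 0).trans (hc 0 (Nat.zero_le _))
      rw [hx.2 m, div_le_iff₀ (den_pos hA hB hx.1 _)]
      have h1 : ∑ i ∈ range (k + 1), β i * x (m + k - i) ≤ ∑ i ∈ range (k + 1), β i * c := by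
        apply sum_le_sum
        intro i hi
        have hi' : i < k + 1 := mem_range.1 hi
        exact mul_le_mul_of_nonneg_left (ih _ (by omega)) (hβ i (by omega))
      rw [← sum_mul, ← hsum] at h1
      have h2 : 0 ≤ ∑ i ∈ range (k + 1), B i * x (m + k - i) :=
        sum_nonneg fun i hi => mul_nonneg (hB i (by have := mem_range.1 hi; omega)) (hx.1 _)
      nlinarith

lemma sol_bounded (hA : 0 < A) (hβ : ∀ i ≤ k, 0 ≤ β i) (hB : ∀ i ≤ k, 0 ≤ B i)
    (hsum : A = ∑ i ∈ range (k + 1), β i) {x : ℕ → ℝ} (hx : IsSol k A β B x) :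
    ∃ c, ∀ n, x n ≤ c := by
  refine ⟨∑ j ∈ range (k + 1), x j, sol_bound hA hβ hB hsum hx fun j hj => ?_⟩
  exact single_le_sum (f := x) (fun i _ => hx.1 i) (mem_range.2 (by omega))

/-- Convergence to zero under the arithmetic condition. -/
lemma tendsto_zero (hA : 0 < A) (hβ : ∀ i ≤ k, 0 ≤ β i) (hB : ∀ i ≤ k, 0 ≤ B i)
    (hsum : A = ∑ i ∈ range (k + 1), β i)
    (hcond : ∃ i ≤ k, 0 < B i ∧ Nat.setGcd (delays k β) ∣ i + 1) {x : ℕ → ℝ}
    (hx : IsSol k A β B x) : Tendsto x atTop (𝓝 0) := by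
  obtain ⟨C, hC⟩ := sol_bounded hA hβ hB hsum hx
  obtain ⟨M, U, L, hU, hL, hL0, hε⟩ := V11298.exists_limit_orbit_sup hx.1 hC
  have hLM : ∀ m, L m ≤ M := V11298.limit_le hU hL hε
  have hLn : ∀ m, 0 ≤ L m := fun m => ge_of_tendsto' (hL m) fun n => hx.1 _
  have hM0 : 0 ≤ M := hL0 ▸ hLn 0
  -- the limiting orbit satisfies the recurrence
  have hrec : ∀ m, L m * (A + ∑ i ∈ range (k + 1), B i * L (m + 1 + i)) =
      ∑ i ∈ range (k + 1), β i * L (m + 1 + i) := by
    intro m
    have h1 : Tendsto (fun n => x (n - m) *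
        (A + ∑ i ∈ range (k + 1), B i * x (n - (m + 1 + i)))) U
        (𝓝 (L m * (A + ∑ i ∈ range (k + 1), B i * L (m + 1 + i)))) :=
      (hL m).mul (tendsto_const_nhds.add
        (tendsto_finsetSum _ fun i _ => tendsto_const_nhds.mul (hL _)))
    have h2 : Tendsto (fun n => ∑ i ∈ range (k + 1), β i * x (n - (m + 1 + i))) U
        (𝓝 (∑ i ∈ range (k + 1), β i * L (m + 1 + i))) :=
      tendsto_finsetSum _ fun i _ => tendsto_const_nhds.mul (hL _)
    refine tendsto_nhds_unique_of_eventuallyEq h1 h2 (hU ?_)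
    filter_upwards [eventually_ge_atTop (m + k + 1)] with n hn
    obtain ⟨r, rfl⟩ : ∃ r, n = r + (m + k + 1) := ⟨n - (m + k + 1), by omega⟩
    have e1 : r + (m + k + 1) - m = r + k + 1 := by omega
    have e2 : ∀ g : ℕ → ℝ, ∑ i ∈ range (k + 1), g i * x (r + (m + k + 1) - (m + 1 + i)) =
        ∑ i ∈ range (k + 1), g i * x (r + k - i) := by
      intro g
      apply sum_congr rfl
      intro i _
      congr 2
      omega
    rw [e1, e2, e2, hx.2 r]
    exact div_mul_cancel₀ _ (den_pos hA hB hx.1 _).ne'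
  -- consequences at a maximum
  have hmax : ∀ m, L m = M → ∀ i ≤ k, (0 < β i → L (m + (i + 1)) = M) ∧
      (0 < B i → M * L (m + (i + 1)) = 0) := by
    intro m hm
    have h1 := hrec m
    rw [hm] at h1
    have h2 : ∑ i ∈ range (k + 1), (β i * (M - L (m + 1 + i)) + M * (B i * L (m + 1 + i))) = 0 := by
      rw [sum_add_distrib, ← mul_sum]
      simp only [mul_sub, sum_sub_distrib]
      rw [← sum_mul, ← hsum]
      linarith
    have hnn : ∀ i ∈ range (k + 1), 0 ≤ β i * (M - L (m + 1 + i)) + M * (B i * L (m + 1 + i)) := by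
      intro i hi
      have hi' : i ≤ k := by have := mem_range.1 hi; omega
      have a1 : 0 ≤ β i * (M - L (m + 1 + i)) := mul_nonneg (hβ i hi') (by linarith [hLM (m + 1 + i)])
      have a2 : 0 ≤ M * (B i * L (m + 1 + i)) := mul_nonneg hM0 (mul_nonneg (hB i hi') (hLn _))
      linarith
    rw [sum_eq_zero_iff_of_nonneg hnn] at h2
    intro i hi
    have h3 := h2 i (mem_range.2 (by omega))
    have a1 : 0 ≤ β i * (M - L (m + 1 + i)) := mul_nonneg (hβ i hi) (by linarith [hLM (m + 1 + i)])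
    have a2 : 0 ≤ M * (B i * L (m + 1 + i)) := mul_nonneg hM0 (mul_nonneg (hB i hi) (hLn _))
    have e : m + (i + 1) = m + 1 + i := by omega
    rw [e]
    constructor
    · intro hb
      have : β i * (M - L (m + 1 + i)) = 0 := by linarith
      rcases mul_eq_zero.1 this with h | h
      · exact absurd h hb.ne'
      · linarith
    · intro hb
      have h4 : M * (B i * L (m + 1 + i)) = 0 := by linarith
      have h5 : B i * (M * L (m + 1 + i)) = 0 := by linarith
      rcases mul_eq_zero.1 h5 with h | h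
      · exact absurd h hb.ne'
      · exact h
  have hsemi : ∀ s ∈ AddSubmonoid.closure (delays k β), ∀ m, L m = M → L (m + s) = M := by
    intro s hs
    induction hs using AddSubmonoid.closure_induction with
    | mem s hs =>
      obtain ⟨i, hi, hbi, rfl⟩ := hs
      intro m hm
      exact (hmax m hm i hi).1 hbi
    | zero => intro m hm; simpa using hm
    | add a b _ _ iha ihb =>
      intro m hm
      rw [← add_assoc]
      exact ihb _ (iha _ hm)
  have hMz : M = 0 := by
    obtain ⟨i, hi, hBi, hdvd⟩ := hcond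
    obtain ⟨N, hN⟩ := Nat.exists_mem_closure_of_ge (delays k β)
    set d := Nat.setGcd (delays k β) with hd
    have hdpos : 0 < d := Nat.pos_of_dvd_of_pos hdvd (by omega)
    have h1 : N * d ∈ AddSubmonoid.closure (delays k β) :=
      hN _ (Nat.le_mul_of_pos_right _ hdpos) (dvd_mul_left _ _)
    have h2 : N * d + (i + 1) ∈ AddSubmonoid.closure (delays k β) :=
      hN _ ((Nat.le_mul_of_pos_right _ hdpos).trans (by omega))
        (dvd_add (dvd_mul_left _ _) hdvd)
    have h3 := hsemi _ h1 0 hL0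
    have h4 := hsemi _ h2 0 hL0
    rw [zero_add] at h3 h4
    have h5 := (hmax _ h3 i hi).2 hBi
    rw [h4] at h5
    exact mul_self_eq_zero.1 h5
  -- conclusion
  rw [Metric.tendsto_atTop]
  intro ε hε'
  obtain ⟨N, hN⟩ := eventually_atTop.1 (hε ε hε')
  refine ⟨N, fun n hn => ?_⟩
  rw [Real.dist_eq, sub_zero, abs_of_nonneg (hx.1 n)]
  have := hN n hn
  rw [hMz, zero_add] at this
  exact this

lemma gas_of_cond (hA : 0 < A) (hβ : ∀ i ≤ k, 0 ≤ β i) (hB : ∀ i ≤ k, 0 ≤ B i)
    (hsum : A = ∑ i ∈ range (k + 1), β i)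
    (hcond : ∃ i ≤ k, 0 < B i ∧ Nat.setGcd (delays k β) ∣ i + 1) : GAS k A β B := by
  refine ⟨fun ε hε => ⟨ε / 2, by positivity, fun x hx hj n => ?_⟩,
    fun x hx => tendsto_zero hA hβ hB hsum hcond hx⟩
  have := sol_bound hA hβ hB hsum hx (c := ε / 2) (fun j hjk => (hj j hjk).le) n
  linarith

/-- The explicit periodic solution. -/
lemma periodic_of_not_cond (hA : 0 < A) (hβ : ∀ i ≤ k, 0 ≤ β i) (hB : ∀ i ≤ k, 0 ≤ B i)
    (hsum : A = ∑ i ∈ range (k + 1), β i) (hBpos : 0 < ∑ i ∈ range (k + 1), B i)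
    (hcond : ¬ ∃ i ≤ k, 0 < B i ∧ Nat.setGcd (delays k β) ∣ i + 1) :
    ∃ p x, 2 ≤ p ∧ IsSol k A β B x ∧ PrimePeriod x p := by
  push Not at hcond
  set d := Nat.setGcd (delays k β) with hd
  have hβne : ∃ i ≤ k, 0 < β i := by
    by_contra hcon
    push Not at hcon
    have : ∑ i ∈ range (k + 1), β i ≤ 0 := sum_nonpos fun i hi =>
      hcon i (by have := mem_range.1 hi; omega)
    linarith
  have hBne : ∃ i ≤ k, 0 < B i := by
    by_contra hcon
    push Not at hcon
    have : ∑ i ∈ range (k + 1), B i ≤ 0 := sum_nonpos fun i hi =>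
      hcon i (by have := mem_range.1 hi; omega)
    linarith
  have hd0 : 0 < d := by
    obtain ⟨i, hi, hbi⟩ := hβne
    exact Nat.pos_of_dvd_of_pos (Nat.setGcd_dvd_of_mem (⟨i, hi, hbi, rfl⟩ : i + 1 ∈ delays k β))
      (by omega)
  have hd2 : 2 ≤ d := by
    obtain ⟨i, hi, hbi⟩ := hBne
    have h1 := hcond i hi hbi
    have : d ≠ 1 := by
      intro h
      apply h1
      rw [h]
      exact one_dvd _
    omega
  refine ⟨d, fun n => if d ∣ n then 1 else 0, hd2, ⟨?_, ?_⟩, by omega, ?_, ?_⟩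
  · intro n
    dsimp only
    split_ifs <;> norm_num
  · intro n
    have key : ∀ i ≤ k, (n + k + 1) = (n + k - i) + (i + 1) := fun i hi => by omega
    dsimp only
    by_cases hdn : d ∣ n + k + 1
    · rw [if_pos hdn]
      have h1 : ∑ i ∈ range (k + 1), β i * (if d ∣ n + k - i then (1 : ℝ) else 0) = A := by
        rw [hsum]
        apply sum_congr rfl
        intro i hi
        have hi' : i ≤ k := by have := mem_range.1 hi; omega
        rcases (hβ i hi').lt_or_eq with h | h
        · have h2 : d ∣ i + 1 := Nat.setGcd_dvd_of_mem (⟨i, hi', h, rfl⟩ : i + 1 ∈ delays k β)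
          rw [key i hi'] at hdn
          rw [if_pos ((Nat.dvd_add_left h2).1 hdn), mul_one]
        · rw [← h, zero_mul]
      have h2 : ∑ i ∈ range (k + 1), B i * (if d ∣ n + k - i then (1 : ℝ) else 0) = 0 := by
        apply sum_eq_zero
        intro i hi
        have hi' : i ≤ k := by have := mem_range.1 hi; omega
        rcases (hB i hi').lt_or_eq with h | h
        · rw [if_neg, mul_zero]
          intro h3
          apply hcond i hi' h
          rw [key i hi'] at hdn
          exact (Nat.dvd_add_right h3).1 hdn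
        · rw [← h, zero_mul]
      rw [h1, h2, add_zero, div_self hA.ne']
    · rw [if_neg hdn]
      have h1 : ∑ i ∈ range (k + 1), β i * (if d ∣ n + k - i then (1 : ℝ) else 0) = 0 := by
        apply sum_eq_zero
        intro i hi
        have hi' : i ≤ k := by have := mem_range.1 hi; omega
        rcases (hβ i hi').lt_or_eq with h | h
        · have h2 : d ∣ i + 1 := Nat.setGcd_dvd_of_mem (⟨i, hi', h, rfl⟩ : i + 1 ∈ delays k β)
          rw [if_neg, mul_zero]
          intro h3
          apply hdn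
          rw [key i hi']
          exact dvd_add h3 h2
        · rw [← h, zero_mul]
      rw [h1, zero_div]
  · intro n
    simp
  · intro q hq hper
    have := hper 0
    simp only [zero_add, dvd_zero, if_true] at this
    have hdq : d ∣ q := by
      by_contra hcon
      rw [if_neg hcon] at this
      norm_num at this
    exact Nat.le_of_dvd (by omega) hdq

/-- The main result: the implication asked for, and an explicit criterion. -/
theorem result (k : ℕ) (A : ℝ) (β B : ℕ → ℝ) (hA : 0 < A) (hβ : ∀ i ≤ k, 0 ≤ β i)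
    (hB : ∀ i ≤ k, 0 ≤ B i) (hsum : A = ∑ i ∈ range (k + 1), β i)
    (hBpos : 0 < ∑ i ∈ range (k + 1), B i) :
    ((¬ ∃ p x, 2 ≤ p ∧ IsSol k A β B x ∧ PrimePeriod x p) → GAS k A β B) ∧
    (GAS k A β B ↔ ∃ i ≤ k, 0 < B i ∧ Nat.setGcd (delays k β) ∣ i + 1) := by
  refine ⟨fun h => ?_, fun h => ?_, gas_of_cond hA hβ hB hsum⟩
  · apply gas_of_cond hA hβ hB hsum
    by_contra hcon
    exact h (periodic_of_not_cond hA hβ hB hsum hBpos hcon)
  · by_contra hcon
    obtain ⟨p, x, hp, hx, hp1, hper, hmin⟩ := periodic_of_not_cond hA hβ hB hsum hBpos hcon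
    have hlim := h.2 x hx
    have hzero : ∀ n, x n = 0 := by
      intro n
      have h1 : ∀ j, x (n + p * j) = x n := by
        intro j
        induction j with
        | zero => rfl
        | succ j ih => rw [← ih, show n + p * (j + 1) = (n + p * j) + p by ring, hper]
      have h2 : Tendsto (fun j => x (n + p * j)) atTop (𝓝 0) := by
        apply hlim.comp
        apply tendsto_atTop_mono (fun j => _) tendsto_id
        intro j
        show j ≤ n + p * j
        nlinarith
      exact tendsto_nhds_unique (tendsto_const_nhds.congr fun j => (h1 j).symm) h2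
    have := hmin 1 le_rfl fun n => by rw [hzero, hzero]
    omega

end Pool.Agent.Results.MP_2e7467_an.ZeroStable
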